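import Pool.Agent.H741.EL.Stm

/-!
Project EL, part DICH: the contact directions are connected one way or the other.
-/

set_option autoImplicit false
open MeasureTheory Metric Set Filter Topology

namespace Pool.Agent.H670.EL
open Pool.Agent.H741.EL Pool.Agent.Y508

/-- the determinant `det (z - q₁, q₂ - q₁)` -/
noncomputable def DD (q₁ q₂ z : E2) : ℝ :=
  (z 0 - q₁ 0) * (q₂ 1 - q₁ 1) - (z 1 - q₁ 1) * (q₂ 0 - q₁ 0)

theorem cont_DD (q₁ q₂ : E2) : Continuous (DD q₁ q₂) := by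
  unfold DD
  fun_prop

/-- a point on the line through `q₁`, `q₂` -/
theorem line_of_DD {q₁ q₂ z : E2} (hne : q₁ ≠ q₂) (hD : DD q₁ q₂ z = 0) :
    ∃ s : ℝ, z = (1 - s) • q₁ + s • q₂ := by
  unfold DD at hD
  by_cases h0 : q₂ 0 - q₁ 0 = 0
  · have h1 : q₂ 1 - q₁ 1 ≠ 0 := by
      intro h1
      apply hne
      ext i
      fin_cases i
      · simp only [Fin.zero_eta]
        linarith
      · simp only [Fin.mk_one]
        linarith
    have hz : z 0 - q₁ 0 = 0 := by
      rw [h0, mul_zero, sub_zero] at hD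
      rcases mul_eq_zero.1 hD with h | h
      · exact h
      · exact absurd h h1
    refine ⟨(z 1 - q₁ 1) / (q₂ 1 - q₁ 1), ?_⟩
    have hs : (z 1 - q₁ 1) / (q₂ 1 - q₁ 1) * (q₂ 1 - q₁ 1) = z 1 - q₁ 1 := div_mul_cancel₀ _ h1
    generalize (z 1 - q₁ 1) / (q₂ 1 - q₁ 1) = s at hs ⊢
    ext i
    fin_cases i
    · simp only [Fin.zero_eta, PiLp.add_apply, PiLp.smul_apply, smul_eq_mul]
      have : q₂ 0 = q₁ 0 := by linarith
      rw [this]
      linarith
    · simp only [Fin.mk_one, PiLp.add_apply, PiLp.smul_apply, smul_eq_mul]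
      linarith
  · refine ⟨(z 0 - q₁ 0) / (q₂ 0 - q₁ 0), ?_⟩
    have hs : (z 0 - q₁ 0) / (q₂ 0 - q₁ 0) * (q₂ 0 - q₁ 0) = z 0 - q₁ 0 := div_mul_cancel₀ _ h0
    generalize (z 0 - q₁ 0) / (q₂ 0 - q₁ 0) = s at hs ⊢
    ext i
    fin_cases i
    · simp only [Fin.zero_eta, PiLp.add_apply, PiLp.smul_apply, smul_eq_mul]
      linarith
    · simp only [Fin.mk_one, PiLp.add_apply, PiLp.smul_apply, smul_eq_mul]
      have h2 : (q₂ 0 - q₁ 0) * (z 1 - q₁ 1) = (q₂ 0 - q₁ 0) * (s * (q₂ 1 - q₁ 1)) := by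
        rw [← hs] at hD
        linarith
      have h3 := mul_left_cancel₀ h0 h2
      linarith

theorem not_in_of_bd {a b : ℝ} {x : E2} (h1 : x ∈ bdE a b) (h2 : x ∈ inE a b) : False := by
  have h1' : (x 0 / a) ^ 2 + (x 1 / b) ^ 2 = 1 := h1
  have h2' : (x 0 / a) ^ 2 + (x 1 / b) ^ 2 < 1 := h2
  linarith

/-- the points of `E` on the line through `q₁`, `q₂` are in `K` -/
theorem mem_of_DD {a b : ℝ} (hb : 0 < b) (hab : b ≤ a) (h1 : S_ELL) {K : Set E2}
    (hc : Convex ℝ K) {q₁ q₂ z : E2} (hne : q₁ ≠ q₂) (hq1 : q₁ ∈ K) (hq2 : q₂ ∈ K)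
    (hb1 : q₁ ∈ bdE a b) (hb2 : q₂ ∈ bdE a b) (hz : z ∈ Ell a b) (hD : DD q₁ q₂ z = 0) :
    z ∈ K := by
  obtain ⟨-, -, -, -, -, -, hst, -⟩ := h1 a b hb hab
  have hE1 : q₁ ∈ Ell a b := le_of_eq hb1
  have hE2 : q₂ ∈ Ell a b := le_of_eq hb2
  obtain ⟨s, hs⟩ := line_of_DD hne hD
  by_cases hs0 : s < 0
  · exfalso
    have hzq : z ≠ q₂ := by
      intro h
      rw [h] at hs
      have h3 : (1 - s) • (q₁ - q₂) = 0 := by
        have h4 : (1 - s) • (q₁ - q₂) = ((1 - s) • q₁ + s • q₂) - q₂ := by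
          module
        rw [h4, ← hs, sub_self]
      rcases smul_eq_zero.1 h3 with h | h
      · linarith
      · exact hne (sub_eq_zero.1 h)
    have hp : 0 < 1 - s := by linarith
    have ht := hst z hz q₂ hE2 hzq (-s / (1 - s)) (div_pos (by linarith) hp)
      ((div_lt_one hp).2 (by linarith))
    have he : (1 - -s / (1 - s)) • z + (-s / (1 - s)) • q₂ = q₁ := by
      rw [hs]
      have h5 : (1 - -s / (1 - s)) * (1 - s) = 1 := by
        field_simp
        ring
      have h6 : (1 - -s / (1 - s)) * s + (-s / (1 - s)) = 0 := by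
        field_simp
        ring
      rw [smul_add, smul_smul, smul_smul, add_assoc, ← add_smul, h5, h6, one_smul, zero_smul,
        add_zero]
    rw [he] at ht
    exact not_in_of_bd hb1 ht
  · by_cases hs1 : 1 < s
    · exfalso
      have hzq : q₁ ≠ z := by
        intro h
        have h3 : s • (q₂ - q₁) = 0 := by
          have h4 : s • (q₂ - q₁) = ((1 - s) • q₁ + s • q₂) - q₁ := by
            module
          rw [h4, ← hs, ← h, sub_self]
        rcases smul_eq_zero.1 h3 with h | h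
        · linarith
        · exact hne (sub_eq_zero.1 h).symm
      have hp : 0 < s := by linarith
      have ht := hst q₁ hE1 z hz hzq (1 / s) (by positivity) ((div_lt_one hp).2 hs1)
      have he : (1 - 1 / s) • q₁ + (1 / s) • z = q₂ := by
        rw [hs]
        have h5 : (1 - 1 / s) + 1 / s * (1 - s) = 0 := by
          field_simp
          ring
        have h6 : 1 / s * s = 1 := by
          field_simp
        rw [smul_add, smul_smul, smul_smul, ← add_assoc, ← add_smul, h5, h6, one_smul, zero_smul,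
          zero_add]
      rw [he] at ht
      exact not_in_of_bd hb2 ht
    · push Not at hs0 hs1
      rw [hs]
      exact hc hq1 hq2 (by linarith) hs0 (by ring)

/-- a point of `E` is in `K` if `K` contains the interior points of `E` near it -/
theorem mem_of_near {a b : ℝ} (hb : 0 < b) (hab : b ≤ a) (h1 : S_ELL) {K : Set E2}
    (hK : IsCompact K) {q : E2} (hq : q ∈ Ell a b) (P : Set E2) (hP : IsOpen P) (hqP : q ∈ P)
    (hin : ∀ z ∈ inE a b, z ∈ P → z ∈ K) : q ∈ K := by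
  obtain ⟨-, -, -, -, -, -, -, hst⟩ := h1 a b hb hab
  have h0 : (0 : E2) ∈ inE a b := by
    show ((0 : E2) 0 / a) ^ 2 + ((0 : E2) 1 / b) ^ 2 < 1
    simp
  have hlim : Tendsto (fun t : ℝ => (1 - t) • q + t • (0 : E2)) (𝓝[>] 0) (𝓝 q) := by
    have hc : Continuous (fun t : ℝ => (1 - t) • q + t • (0 : E2)) := by fun_prop
    have h2 := (hc.tendsto 0).mono_left (nhdsWithin_le_nhds (s := Ioi 0))
    have h3 : (1 - (0 : ℝ)) • q + (0 : ℝ) • (0 : E2) = q := by simp
    rw [h3] at h2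
    exact h2
  refine hK.isClosed.mem_of_tendsto hlim ?_
  have hev1 : ∀ᶠ t in 𝓝[>] (0 : ℝ), (1 - t) • q + t • (0 : E2) ∈ P :=
    hlim.eventually (hP.mem_nhds hqP)
  have hev2 : ∀ᶠ t in 𝓝[>] (0 : ℝ), t ∈ Ioo (0 : ℝ) 1 := Ioo_mem_nhdsGT zero_lt_one
  filter_upwards [hev1, hev2] with t ht1 ht2
  exact hin _ (hst q hq 0 h0 t ht2.1 ht2.2.le) ht1

theorem hE_two_pi (a b θ : ℝ) : hE a b (θ + 2 * Real.pi) = hE a b θ := by
  unfold hE
  rw [Real.cos_add_two_pi, Real.sin_add_two_pi]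

theorem t_DICH (h1 : S_ELL) (h2 : S_QQ) : S_DICH := by
  intro a b p K hC θ₁ θ₂ h12 h21 hh1 hh2
  have hb := hC.hb
  have hab := hC.hab
  obtain ⟨hBody, -, -, -, hhE, -, -, -⟩ := h1 a b hb hab
  obtain ⟨q1, q2, -, -, q5, -, q7, q8, q9⟩ := h2 a b hb hab
  have hK := hC.body.cpt
  -- contact points
  have hcon : ∀ θ, hs K θ = hE a b θ → qE a b θ ∈ K := by
    intro θ hθ
    obtain ⟨x, hx, hxe⟩ := exists_hs hK hC.body.ne θ
    have := q5 θ x (hC.sub hx) (by rw [← hxe, hθ])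
    rw [← this]
    exact hx
  have hback : ∀ θ, qE a b θ ∈ K → hs K θ = hE a b θ := by
    intro θ hθ
    apply le_antisymm
    · rw [← hhE θ]
      exact hs_mono hBody.cpt hC.body.ne hC.sub θ
    · rw [← q2 θ]
      exact le_hs hK hθ θ
  have hne : qE a b θ₁ ≠ qE a b θ₂ := by
    intro h
    obtain ⟨k, hk⟩ := q7 θ₁ θ₂ h
    have hpi := Real.pi_pos
    have hk1 : (0 : ℝ) < k := by
      by_contra hk0
      push Not at hk0
      have : (k : ℝ) * (2 * Real.pi) ≤ 0 := mul_nonpos_of_nonpos_of_nonneg hk0 (by positivity)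
      linarith
    have hk2 : (k : ℝ) < 1 := by
      by_contra hk0
      push Not at hk0
      have : 1 * (2 * Real.pi) ≤ (k : ℝ) * (2 * Real.pi) :=
        mul_le_mul_of_nonneg_right hk0 (by positivity)
      linarith
    have hk3 : 0 < k := by exact_mod_cast hk1
    have hk4 : k < 1 := by exact_mod_cast hk2
    omega
  have hq1 := hcon θ₁ hh1
  have hq2 := hcon θ₂ hh2
  have hnz : ∀ z ∈ inE a b \ K, DD (qE a b θ₁) (qE a b θ₂) z ≠ 0 := by
    intro z hz hD
    have hzE : z ∈ Ell a b := by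
      have h3 : (z 0 / a) ^ 2 + (z 1 / b) ^ 2 < 1 := hz.1
      exact h3.le
    exact hz.2 (mem_of_DD hb hab h1 hC.body.cvx hne hq1 hq2 (q1 θ₁) (q1 θ₂) hzE hD)
  have hcD := cont_DD (qE a b θ₁) (qE a b θ₂)
  have hEll : ∀ θ, qE a b θ ∈ Ell a b := fun θ => le_of_eq (q1 θ)
  by_cases hneg : ∀ z ∈ inE a b \ K, DD (qE a b θ₁) (qE a b θ₂) z < 0
  · left
    intro θ hθ
    rcases eq_or_lt_of_le hθ.1 with he | hl
    · rw [← he]
      exact hh1
    rcases eq_or_lt_of_le hθ.2 with he | hr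
    · rw [he]
      exact hh2
    apply hback
    refine mem_of_near hb hab h1 hK (hEll θ) {z | 0 < DD (qE a b θ₁) (qE a b θ₂) z}
      (isOpen_lt continuous_const hcD) (q8 θ₁ θ₂ θ hl hr h21) ?_
    intro z hz hzP
    by_contra hzK
    exact lt_asymm (hneg z ⟨hz, hzK⟩) hzP
  · right
    push Not at hneg
    obtain ⟨z₀, hz₀, hD₀⟩ := hneg
    have hpos : ∀ z ∈ inE a b \ K, 0 < DD (qE a b θ₁) (qE a b θ₂) z := by
      intro z hz
      by_contra hzn
      push Not at hzn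
      obtain ⟨w, hw, hwe⟩ := hC.conn.intermediate_value hz hz₀ hcD.continuousOn ⟨hzn, hD₀⟩
      exact hnz w hw hwe
    intro θ hθ
    rcases eq_or_lt_of_le hθ.1 with he | hl
    · rw [← he]
      exact hh2
    rcases eq_or_lt_of_le hθ.2 with he | hr
    · rw [he, hs_two_pi, hE_two_pi]
      exact hh1
    apply hback
    refine mem_of_near hb hab h1 hK (hEll θ) {z | DD (qE a b θ₁) (qE a b θ₂) z < 0}
      (isOpen_lt hcD continuous_const) (q9 θ₁ θ₂ θ h12 hl hr) ?_
    intro z hz hzP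
    by_contra hzK
    exact lt_asymm (hpos z ⟨hz, hzK⟩) hzP

end Pool.Agent.H670.EL
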